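import Mathlib
import Pool.Agent.KS6_57.MT3.M

set_option autoImplicit false

namespace Pool.Agent.KS6_57.MT3

open Finset Filter Topology MeasureTheory Set

/-- reciprocal of primes -/
noncomputable def fp (n : ℕ) : ℝ := if n.Prime then (1 : ℝ) / n else 0

lemma fp_nonneg (n : ℕ) : 0 ≤ fp n := by
  unfold fp; split_ifs <;> positivity

/-- sum of `1/p` over the primes `p < exp v` -/
noncomputable def HH (v : ℝ) : ℝ := ∑ n ∈ Finset.range ⌈Real.exp v⌉₊, fp n

lemma HH_nonneg (v : ℝ) : 0 ≤ HH v := Finset.sum_nonneg fun n _ => fp_nonneg n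

lemma HH_mono : Monotone HH := by
  intro a b hab
  unfold HH
  refine Finset.sum_le_sum_of_subset_of_nonneg ?_ fun n _ _ => fp_nonneg n
  exact Finset.range_mono (Nat.ceil_mono (Real.exp_le_exp.2 hab))

lemma sum_fp_range (N : ℕ) : ∑ n ∈ Finset.range (N + 1), fp n =
    ∑ p ∈ (Finset.Icc 1 N).filter Nat.Prime, (1 : ℝ) / p := by
  unfold fp
  rw [Finset.sum_filter, Finset.range_eq_Ico]
  rw [← Finset.sum_subset (s₁ := Finset.Icc 1 N) (s₂ := Finset.Ico 0 (N + 1))]
  · intro n hn
    simp only [Finset.mem_Icc, Finset.mem_Ico] at *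
    omega
  · intro n hn hn'
    simp only [Finset.mem_Icc, Finset.mem_Ico] at *
    have : n = 0 := by omega
    subst this
    simp [Nat.not_prime_zero]

/-- the Mertens constant -/
lemma exists_M : ∃ M : ℝ, Tendsto (fun v : ℝ => HH v - Real.log v) atTop (𝓝 M) := by
  obtain ⟨M, hM⟩ := mertens_inv_tendsto
  refine ⟨M, ?_⟩
  have hN : Tendsto (fun v : ℝ => ⌈Real.exp v⌉₊ - 1) atTop atTop := by
    refine tendsto_atTop.2 fun b => ?_
    filter_upwards [(tendsto_nat_ceil_atTop.comp Real.tendsto_exp_atTop).eventually_ge_atTop (b + 1)] with v hv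
    simp only [Function.comp] at hv
    omega
  have h1 := hM.comp hN
  have h2 : Tendsto (fun v : ℝ => Real.log (Real.log ((⌈Real.exp v⌉₊ - 1 : ℕ) : ℝ)) - Real.log v) atTop (𝓝 0) := by
    have hr : Tendsto (fun v : ℝ => Real.log ((⌈Real.exp v⌉₊ - 1 : ℕ) : ℝ) / v) atTop (𝓝 1) := by
      have hlow : Tendsto (fun v : ℝ => 1 - Real.log 2 / v) atTop (𝓝 1) := by
        have := (tendsto_const_nhds (x := Real.log 2)).div_atTop tendsto_id (l := (atTop : Filter ℝ))
        simpa using this.const_sub 1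
      refine tendsto_of_tendsto_of_tendsto_of_le_of_le' hlow tendsto_const_nhds ?_ ?_
      · filter_upwards [eventually_ge_atTop (1 : ℝ)] with v hv
        have hv0 : 0 < v := by linarith
        have he : 2 ≤ Real.exp v := by
          have := Real.add_one_le_exp v; linarith
        have hc : Real.exp v ≤ ⌈Real.exp v⌉₊ := Nat.le_ceil _
        have hc1 : 1 ≤ ⌈Real.exp v⌉₊ := Nat.one_le_iff_ne_zero.2 (by
          intro h; rw [h] at hc; simp at hc; linarith)
        have hcast : ((⌈Real.exp v⌉₊ - 1 : ℕ) : ℝ) = (⌈Real.exp v⌉₊ : ℝ) - 1 := by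
          push_cast [Nat.cast_sub hc1]; ring
        have hge : Real.exp v / 2 ≤ ((⌈Real.exp v⌉₊ - 1 : ℕ) : ℝ) := by rw [hcast]; linarith
        have := Real.log_le_log (by positivity) hge
        rw [Real.log_div (by positivity) (by norm_num), Real.log_exp] at this
        rw [le_div_iff₀ hv0, sub_mul, div_mul_cancel₀ _ hv0.ne']
        linarith
      · filter_upwards [eventually_ge_atTop (1 : ℝ)] with v hv
        have hv0 : 0 < v := by linarith
        have he : 2 ≤ Real.exp v := by
          have := Real.add_one_le_exp v; linarith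
        have hc : Real.exp v ≤ ⌈Real.exp v⌉₊ := Nat.le_ceil _
        have hc1 : 1 ≤ ⌈Real.exp v⌉₊ := Nat.one_le_iff_ne_zero.2 (by
          intro h; rw [h] at hc; simp at hc; linarith)
        have hcast : ((⌈Real.exp v⌉₊ - 1 : ℕ) : ℝ) = (⌈Real.exp v⌉₊ : ℝ) - 1 := by
          push_cast [Nat.cast_sub hc1]; ring
        have hlt : (⌈Real.exp v⌉₊ : ℝ) < Real.exp v + 1 := Nat.ceil_lt_add_one (by positivity)
        have hpos : (0 : ℝ) < ((⌈Real.exp v⌉₊ - 1 : ℕ) : ℝ) := by rw [hcast]; linarith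
        have := Real.log_le_log hpos (show ((⌈Real.exp v⌉₊ - 1 : ℕ) : ℝ) ≤ Real.exp v by rw [hcast]; linarith)
        rw [Real.log_exp] at this
        rw [div_le_one hv0]
        exact this
    have hr' := (Real.continuousAt_log (by norm_num : (1 : ℝ) ≠ 0)).tendsto.comp hr
    rw [Real.log_one] at hr'
    refine hr'.congr' ?_
    filter_upwards [eventually_ge_atTop (2 : ℝ)] with v hv
    have hv0 : 0 < v := by linarith
    have he : 3 ≤ Real.exp v := by
      have := Real.add_one_le_exp v; linarith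
    have hc : Real.exp v ≤ ⌈Real.exp v⌉₊ := Nat.le_ceil _
    have hc1 : 1 ≤ ⌈Real.exp v⌉₊ := Nat.one_le_iff_ne_zero.2 (by
      intro h; rw [h] at hc; simp at hc; linarith)
    have hcast : ((⌈Real.exp v⌉₊ - 1 : ℕ) : ℝ) = (⌈Real.exp v⌉₊ : ℝ) - 1 := by
      push_cast [Nat.cast_sub hc1]; ring
    have hpos : 0 < Real.log ((⌈Real.exp v⌉₊ - 1 : ℕ) : ℝ) := Real.log_pos (by rw [hcast]; linarith)
    simp only [Function.comp]
    rw [Real.log_div hpos.ne' hv0.ne']
  have h3 := h1.add h2
  rw [add_zero] at h3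
  refine h3.congr' ?_
  filter_upwards [eventually_ge_atTop (1 : ℝ)] with v hv
  have hc : Real.exp v ≤ ⌈Real.exp v⌉₊ := Nat.le_ceil _
  have he : 2 ≤ Real.exp v := by
    have := Real.add_one_le_exp v; linarith
  have hc1 : 1 ≤ ⌈Real.exp v⌉₊ := Nat.one_le_iff_ne_zero.2 (by
    intro h; rw [h] at hc; simp at hc; linarith)
  simp only [Function.comp]
  rw [← sum_fp_range]
  unfold HH
  rw [Nat.sub_add_cancel hc1]
  ring

lemma HH_bound {M : ℝ} (hM : Tendsto (fun v : ℝ => HH v - Real.log v) atTop (𝓝 M)) :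
    ∃ C : ℝ, 0 ≤ C ∧ ∀ v : ℝ, 0 < v → |HH v - Real.log v - M| ≤ C + max 0 (-Real.log v) := by
  have h1 : ∀ᶠ v in atTop, |HH v - Real.log v - M| < 1 := by
    have := (Metric.tendsto_nhds.1 hM) 1 one_pos
    filter_upwards [this] with v hv
    rwa [Real.dist_eq] at hv
  obtain ⟨V, hV⟩ := (h1.and (eventually_ge_atTop 1)).exists_forall_of_atTop
  have hV1 : 1 ≤ V := (hV V le_rfl).2
  refine ⟨1 + HH V + |M| + Real.log V, ?_, fun v hv => ?_⟩
  · have := HH_nonneg V
    have := Real.log_nonneg hV1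
    positivity
  rcases le_total V v with h | h
  · have := (hV v h).1
    have := HH_nonneg V
    have := Real.log_nonneg hV1
    have := abs_nonneg M
    have := le_max_left 0 (-Real.log v)
    linarith
  · have h2 := HH_mono h
    have h3 := HH_nonneg v
    have h4 : Real.log v ≤ Real.log V := Real.log_le_log hv h
    have h5 := le_max_left 0 (-Real.log v)
    have h6 := le_max_right 0 (-Real.log v)
    have h7 := Real.log_nonneg hV1
    have h8 := abs_le.1 (le_refl |M|)
    rw [abs_le]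
    constructor
    · linarith [h8.2]
    · linarith [h8.1]

lemma integrable_bound (C : ℝ) : IntegrableOn (fun w : ℝ => Real.exp (-w) * (C + max 0 (-Real.log w)))
    (Ioi 0) := by
  have h1 := Real.GammaIntegral_convergent (s := 1) one_pos
  have h2 := Real.GammaIntegral_convergent (s := 1 / 2) (by norm_num)
  have h3 : IntegrableOn (fun w : ℝ => |C| * (Real.exp (-w) * w ^ ((1 : ℝ) - 1)) +
      2 * (Real.exp (-w) * w ^ ((1 / 2 : ℝ) - 1))) (Ioi 0) := (h1.const_mul _).add (h2.const_mul _)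
  refine Integrable.mono' h3 ?_ ?_
  · refine Measurable.aestronglyMeasurable ?_
    fun_prop
  · rw [ae_restrict_iff' measurableSet_Ioi]
    refine Eventually.of_forall fun w hw => ?_
    have hw : 0 < w := hw
    rw [norm_mul, Real.norm_of_nonneg (Real.exp_pos _).le, Real.norm_eq_abs]
    have e1 : w ^ ((1 : ℝ) - 1) = 1 := by norm_num
    rw [e1]
    have h4 : max 0 (-Real.log w) ≤ 2 * w ^ ((1 / 2 : ℝ) - 1) := by
      refine max_le (by positivity) ?_
      rw [← Real.log_inv]
      have := Real.log_le_rpow_div (x := w⁻¹) (by positivity) (ε := 1 / 2) (by norm_num)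
      refine this.trans (le_of_eq ?_)
      rw [Real.inv_rpow hw.le, ← Real.rpow_neg hw.le]
      norm_num
      ring
    have h5 : |C + max 0 (-Real.log w)| ≤ |C| + 2 * w ^ ((1 / 2 : ℝ) - 1) := by
      refine (abs_add_le _ _).trans ?_
      rw [abs_of_nonneg (le_max_left 0 (-Real.log w))]
      linarith
    calc Real.exp (-w) * |C + max 0 (-Real.log w)| ≤
        Real.exp (-w) * (|C| + 2 * w ^ ((1 / 2 : ℝ) - 1)) :=
          mul_le_mul_of_nonneg_left h5 (Real.exp_pos _).le
      _ = _ := by ring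

end Pool.Agent.KS6_57.MT3
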